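import Mathlib
import Pool.Agent.R516.MPD

set_option autoImplicit false

/-!
# Montgomery's conjecture for Dirichlet polynomials supported on many short arithmetic progressions

For every `A ≥ 1` and `η > 0` there is `c > 0` such that the inequality of Q1 holds, without the loss `N^ε` and for
all `T ≤ N^A`, for all coefficients bounded by `1` supported on a union of arithmetic progressions `P_j` in
`[N/2, N]`, of differences `d_j` and lengths `L_j` with `d_j L_j^3 ≥ N^(1+η)` and `∑ L_j ≤ N^(1/2+c)`, and on any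
`N^(1/2)` further integers of `[N/2, N]`. For instance, on any set covered by `N^(1/6-η/3)` intervals of
`N^((1+η)/3+c)` consecutive integers.
-/

namespace Pool.Agent.Results.MP_71ac24_nt.ManyProgressions

open Finset

/-- `D(t) = ∑_{n ≤ N} a_n n^{it}` -/
noncomputable def D (N : ℕ) (a : ℕ → ℂ) (t : ℝ) : ℂ :=
  ∑ n ∈ Icc 1 N, a n * Complex.exp (Complex.I * (t : ℂ) * (Real.log (n : ℝ) : ℂ))

/-- `n` lies in `E` or in one of the progressions `m_j, m_j + d_j, …, m_j + (L_j - 1) d_j`, `j ∈ J` -/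
def Supp (J : Finset ℕ) (m d L : ℕ → ℕ) (E : Finset ℕ) (n : ℕ) : Prop :=
  n ∈ E ∨ ∃ j ∈ J, ∃ i < L j, n = m j + d j * i

/-- the progressions lie in `[N/2, N]`, have at least two terms, `d_j L_j^3 ≥ N^(1+η)` for every `j ∈ J`,
`∑ L_j ≤ N^(1/2+c)`, and `E` has at most `N^(1/2)` elements -/
def Thin (N : ℕ) (η c : ℝ) (J : Finset ℕ) (m d L : ℕ → ℕ) (E : Finset ℕ) : Prop :=
  (∀ j ∈ J, N ≤ 2 * m j ∧ m j + d j * (L j - 1) ≤ N) ∧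
    (∀ j ∈ J, 1 ≤ d j ∧ 2 ≤ L j ∧ (N : ℝ) ^ (1 + η) ≤ d j * (L j : ℝ) ^ 3) ∧
    ∑ j ∈ J, (L j : ℝ) ≤ (N : ℝ) ^ (1 / 2 + c) ∧ (E.card : ℝ) ≤ (N : ℝ) ^ (1 / 2 : ℝ)

open Pool.Agent.R516.MP in
/-- Let `A ≥ 1` (for Q1: `A = 2`), `0 < η ≤ 1`. There are `c > 0` and `C` such that for all `T ≤ N^A`, all
progressions and all `E` satisfying `Thin`, all complex `a_1, …, a_N` vanishing outside the integers of `[N/2, N]`
in one of the progressions or in `E`, and all `1`-separated `S ⊂ [0,T]`: `∑_{t ∈ S} |D(t)|² ≤ C (N + |S|) N` if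
`|a_n| ≤ 1` for all `n`; and `∑_{t ∈ S} |D(t)|² ≤ C (N^(3/2-c) + |S| N^(1/2-c)) ∑ |a_n|²` if `E` is empty. -/
theorem result (A η : ℝ) (hA : 1 ≤ A) (hη : 0 < η) (hη1 : η ≤ 1) :
    ∃ c C : ℝ, 0 < c ∧ ∀ (N : ℕ) (J : Finset ℕ) (m d L : ℕ → ℕ) (E : Finset ℕ) (T : ℝ) (a : ℕ → ℂ), 1 ≤ N →
      Thin N η c J m d L E → T ≤ (N : ℝ) ^ A →
      (∀ n ∈ Icc 1 N, a n ≠ 0 → N ≤ 2 * n ∧ Supp J m d L E n) →
      ∀ S : Finset ℝ, (∀ t ∈ S, 0 ≤ t ∧ t ≤ T) → (∀ t ∈ S, ∀ u ∈ S, t ≠ u → 1 ≤ |t - u|) →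
        ((∀ n, ‖a n‖ ≤ 1) → ∑ t ∈ S, ‖D N a t‖ ^ 2 ≤ C * ((N : ℝ) + S.card) * N) ∧
        (E = ∅ → ∑ t ∈ S, ‖D N a t‖ ^ 2 ≤
          C * ((N : ℝ) ^ (3 / 2 - c) + S.card * (N : ℝ) ^ (1 / 2 - c)) * ∑ n ∈ Icc 1 N, ‖a n‖ ^ 2) := by
  obtain ⟨c, C, hc0, hC0, h⟩ := onOne A η hA hη hη1
  refine ⟨c, C, hc0, ?_⟩
  intro N J m d L E T a hN hBE hT hs S hS hsep
  obtain ⟨h1, h2, h3, h4⟩ := hBE
  exact h N J m d L E hN h1 h2 h3 h4 T 0 S a hT hsep (fun t ht => ⟨(hS t ht).1, by linarith [(hS t ht).2]⟩) hs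

end Pool.Agent.Results.MP_71ac24_nt.ManyProgressions
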