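import Mathlib
import Pool.Agent.R327.SI71

set_option autoImplicit false

/-!
# Montgomery's conjecture for all Dirichlet polynomials supported on a short interval

Q1 holds, for all `T ≤ N²` and all `1`-separated `S ⊂ [0,T]`, for all coefficients bounded by `1` which vanish
outside an interval of at most `N^(5/9)` consecutive integers of `[N/2, N]` (for `N^(1/2)` this is trivial).
More precisely, for arbitrary complex coefficients on such an interval,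
`∑_{t ∈ S} |D(t)|² ≤ C N^ε (N^(25/18) + |S| N^(4/9)) ∑ |a_n|²`.
-/

namespace Pool.Agent.Results.MP_71ac24_nt.ShortIntervals

open Finset

/-- `D(t) = ∑_{n ≤ N} a_n n^{it}` -/
noncomputable def D (N : ℕ) (a : ℕ → ℂ) (t : ℝ) : ℂ :=
  ∑ n ∈ Icc 1 N, a n * Complex.exp (Complex.I * (t : ℂ) * (Real.log (n : ℝ) : ℂ))

open Pool.Agent.R327.SI in
/-- Let `a` vanish in `[1, N]` outside `[m, m + L)`, where `m ≥ N/2` and `L ≤ N^(5/9)`, let `T ≤ N²` and let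
`S ⊂ [0,T]` be `1`-separated. Then `∑_{t ∈ S} |D(t)|² ≤ C N^ε (N^(25/18) + |S| N^(4/9)) ∑_{n ≤ N} |a_n|²`, and
if `|a_n| ≤ 1` for all `n` the inequality of Q1 holds: `∑_{t ∈ S} |D(t)|² ≤ C N^ε (N + |S|) N`. -/
theorem result (ε : ℝ) (hε : 0 < ε) : ∃ C : ℝ, ∀ (N m L : ℕ) (T : ℝ) (a : ℕ → ℂ), 1 ≤ N → N ≤ 2 * m →
    (L : ℝ) ≤ (N : ℝ) ^ (5 / 9 : ℝ) → T ≤ (N : ℝ) ^ 2 →
    (∀ n ∈ Icc 1 N, a n ≠ 0 → m ≤ n ∧ n < m + L) →
    ∀ S : Finset ℝ, (∀ t ∈ S, 0 ≤ t ∧ t ≤ T) → (∀ t ∈ S, ∀ u ∈ S, t ≠ u → 1 ≤ |t - u|) →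
      (∑ t ∈ S, ‖D N a t‖ ^ 2 ≤ C * (N : ℝ) ^ ε *
        ((N : ℝ) ^ (25 / 18 : ℝ) + S.card * (N : ℝ) ^ (4 / 9 : ℝ)) * ∑ n ∈ Icc 1 N, ‖a n‖ ^ 2) ∧
      ((∀ n, ‖a n‖ ≤ 1) → ∑ t ∈ S, ‖D N a t‖ ^ 2 ≤ C * (N : ℝ) ^ ε * (N + S.card) * N) := by
  obtain ⟨C0, hC0, h⟩ := goodI
  obtain ⟨C, hC⟩ := S71.key (1 / 18) C0 ε (by norm_num) le_rfl hC0 hε
  refine ⟨C, ?_⟩
  intro N m L T a hN hNm hL hT hs S hS hsep
  have hN1 : (1 : ℝ) ≤ N := by exact_mod_cast hN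
  have h1 := hC N m 1 L T hN hNm le_rfl ?_ a ?_ S hS hsep
  · rw [show (5 / 4 + 5 * (1 / 18) / 2 : ℝ) = 25 / 18 by norm_num,
      show (1 / 2 - 1 / 18 : ℝ) = 4 / 9 by norm_num] at h1
    exact h1
  · intro hm
    have h2 := supp_len N (2 * ((N + 1) / 2)) m 1 L hm (by omega)
    have hN2 : (N : ℝ) ≤ 2 * ((N + 1) / 2 : ℕ) := by
      have : N ≤ 2 * ((N + 1) / 2) := by omega
      exact_mod_cast this
    apply h ((N + 1) / 2) m _ (by omega) (by omega) (by omega)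
    · have h3 : ((min L ((N - m) / 1 + 1) : ℕ) : ℝ) ≤ L := by exact_mod_cast min_le_left _ _
      calc ((min L ((N - m) / 1 + 1) : ℕ) : ℝ) ≤ (N : ℝ) ^ (5 / 9 : ℝ) := h3.trans hL
        _ ≤ (2 * ((N + 1) / 2 : ℕ) : ℝ) ^ (5 / 9 : ℝ) := Real.rpow_le_rpow (by linarith) hN2 (by norm_num)
        _ = 2 ^ (5 / 9 : ℝ) * (((N + 1) / 2 : ℕ) : ℝ) ^ (5 / 9 : ℝ) := by
            rw [Real.mul_rpow (by norm_num) (Nat.cast_nonneg _)]
        _ ≤ 2 * (((N + 1) / 2 : ℕ) : ℝ) ^ (5 / 9 : ℝ) := by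
            have : (2 : ℝ) ^ (5 / 9 : ℝ) ≤ 2 := by
              calc (2 : ℝ) ^ (5 / 9 : ℝ) ≤ 2 ^ (1 : ℝ) :=
                    Real.rpow_le_rpow_of_exponent_le (by norm_num) (by norm_num)
                _ = 2 := Real.rpow_one _
            gcongr
    · calc T ≤ (N : ℝ) ^ 2 := hT
        _ ≤ (2 * ((N + 1) / 2 : ℕ) : ℝ) ^ 2 := by gcongr
        _ = _ := by ring
  · intro n hn hne
    have := hs n hn hne
    exact ⟨n - m, by omega, by omega⟩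

end Pool.Agent.Results.MP_71ac24_nt.ShortIntervals
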