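import Mathlib
import Pool.Agent.R327.SI71

set_option autoImplicit false

/-!
# Montgomery's conjecture for all Dirichlet polynomials supported on a short arithmetic progression

There is `c > 0` such that Q1 holds, for all `T ≤ N²` and all `1`-separated `S ⊂ [0,T]`, for all coefficients
bounded by `1` which vanish outside an arithmetic progression with at most `N^(1/2+c)` terms in `[N/2, N]`, of
any first term and any difference. More precisely, for arbitrary complex coefficients on such a progression,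
`∑_{t ∈ S} |D(t)|² ≤ C N^ε (N^(4/3) + |S| N^(1/2-c)) ∑ |a_n|²`. The same holds for `T ≤ N^A` with `c = c(A)`.
-/

namespace Pool.Agent.Results.MP_71ac24_nt.ShortProgressions

open Finset

/-- `D(t) = ∑_{n ≤ N} a_n n^{it}` -/
noncomputable def D (N : ℕ) (a : ℕ → ℂ) (t : ℝ) : ℂ :=
  ∑ n ∈ Icc 1 N, a n * Complex.exp (Complex.I * (t : ℂ) * (Real.log (n : ℝ) : ℂ))

open Pool.Agent.R327.SI in
/-- Let `A ≥ 1`. There is `c > 0` such that for every `ε > 0` there is `C` with the following property. Let `a`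
vanish in `[1, N]` outside the progression `m, m + d, …, m + (L-1) d`, where `m ≥ N/2` and `L ≤ N^(1/2+c)`, let
`T ≤ N^A` (for Q1: `A = 2`) and let `S ⊂ [0,T]` be `1`-separated. Then
`∑_{t ∈ S} |D(t)|² ≤ C N^ε (N^(4/3) + |S| N^(1/2-c)) ∑_{n ≤ N} |a_n|²`, and if `|a_n| ≤ 1` for all `n` the
inequality of Q1 holds: `∑_{t ∈ S} |D(t)|² ≤ C N^ε (N + |S|) N`. -/
theorem result (A : ℝ) (hA : 1 ≤ A) : ∃ c : ℝ, 0 < c ∧ ∀ ε : ℝ, 0 < ε →
    ∃ C : ℝ, ∀ (N m d L : ℕ) (T : ℝ) (a : ℕ → ℂ), 1 ≤ N → N ≤ 2 * m → 1 ≤ d →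
    (L : ℝ) ≤ (N : ℝ) ^ (1 / 2 + c) → T ≤ (N : ℝ) ^ A →
    (∀ n ∈ Icc 1 N, a n ≠ 0 → ∃ j < L, n = m + d * j) →
    ∀ S : Finset ℝ, (∀ t ∈ S, 0 ≤ t ∧ t ≤ T) → (∀ t ∈ S, ∀ u ∈ S, t ≠ u → 1 ≤ |t - u|) →
      (∑ t ∈ S, ‖D N a t‖ ^ 2 ≤ C * (N : ℝ) ^ ε *
        ((N : ℝ) ^ (4 / 3 : ℝ) + S.card * (N : ℝ) ^ (1 / 2 - c)) * ∑ n ∈ Icc 1 N, ‖a n‖ ^ 2) ∧
      ((∀ n, ‖a n‖ ≤ 1) → ∑ t ∈ S, ‖D N a t‖ ^ 2 ≤ C * (N : ℝ) ^ ε * (N + S.card) * N) := by
  obtain ⟨c, hc0, hc, C0, hC0, h⟩ := goodAP A hA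
  refine ⟨c, hc0, ?_⟩
  intro ε hε
  obtain ⟨C, hC⟩ := S71.key c C0 ε hc0.le (by linarith) hC0 hε
  refine ⟨max C 0, ?_⟩
  intro N m d L T a hN hNm hd hL hT hs S hS hsep
  have hN1 : (1 : ℝ) ≤ N := by exact_mod_cast hN
  have hN0 : (0 : ℝ) < N := by linarith
  have h1 := hC N m d L T hN hNm hd ?_ a hs S hS hsep
  · have hG0 : 0 ≤ ∑ n ∈ Icc 1 N, ‖a n‖ ^ 2 := sum_nonneg fun _ _ => by positivity
    constructor
    · refine h1.1.trans ?_
      have e1 : (N : ℝ) ^ (5 / 4 + 5 * c / 2) ≤ (N : ℝ) ^ (4 / 3 : ℝ) :=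
        Real.rpow_le_rpow_of_exponent_le hN1 (by linarith)
      calc C * (N : ℝ) ^ ε * ((N : ℝ) ^ (5 / 4 + 5 * c / 2) + S.card * (N : ℝ) ^ (1 / 2 - c)) *
            ∑ n ∈ Icc 1 N, ‖a n‖ ^ 2
          ≤ max C 0 * (N : ℝ) ^ ε * ((N : ℝ) ^ (5 / 4 + 5 * c / 2) + S.card * (N : ℝ) ^ (1 / 2 - c)) *
            ∑ n ∈ Icc 1 N, ‖a n‖ ^ 2 := by
            have := le_max_left C 0
            gcongr
        _ ≤ _ := by gcongr
    · intro ha
      refine (h1.2 ha).trans ?_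
      have := le_max_left C 0
      gcongr
  · intro hm
    have h2 := supp_len N (2 * ((N + 1) / 2)) m d L hm (by omega)
    have hN2 : (N : ℝ) ≤ 2 * ((N + 1) / 2 : ℕ) := by
      have : N ≤ 2 * ((N + 1) / 2) := by omega
      exact_mod_cast this
    apply h ((N + 1) / 2) m d _ (by omega) hd (by omega) (by omega)
    · have h3 : ((min L ((N - m) / d + 1) : ℕ) : ℝ) ≤ L := by exact_mod_cast min_le_left _ _
      calc ((min L ((N - m) / d + 1) : ℕ) : ℝ) ≤ (N : ℝ) ^ (1 / 2 + c) := h3.trans hL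
        _ ≤ (2 * ((N + 1) / 2 : ℕ) : ℝ) ^ (1 / 2 + c) := Real.rpow_le_rpow (by linarith) hN2 (by linarith)
        _ = 2 ^ (1 / 2 + c) * (((N + 1) / 2 : ℕ) : ℝ) ^ (1 / 2 + c) := by
            rw [Real.mul_rpow (by norm_num) (Nat.cast_nonneg _)]
        _ ≤ 2 * (((N + 1) / 2 : ℕ) : ℝ) ^ (1 / 2 + c) := by
            have : (2 : ℝ) ^ (1 / 2 + c) ≤ 2 := by
              calc (2 : ℝ) ^ (1 / 2 + c) ≤ 2 ^ (1 : ℝ) :=
                    Real.rpow_le_rpow_of_exponent_le (by norm_num) (by linarith)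
                _ = 2 := Real.rpow_one _
            gcongr
    · refine hT.trans (Real.rpow_le_rpow (by linarith) hN2 (by linarith))

end Pool.Agent.Results.MP_71ac24_nt.ShortProgressions
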