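import Mathlib
import Pool.Agent.R516.MSE

set_option autoImplicit false

/-!
# Montgomery's conjecture for Dirichlet polynomials supported on multiples of a sparse set, and on the integers `β d^k`

For every `A ≥ 1`, `K ≥ 1`, `0 < μ ≤ 1` there is `c > 0` such that the inequality of Q1 holds, without the loss
`N^ε` and for all `T ≤ N^A`, for all coefficients bounded by `1` supported on those integers `β d^k` of `[N/2, N]`,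
where the pairs `(β, k)` run over any set `B` with `β ≤ N^(1-μ)`, `k ≤ K` and
`∑_{(β,k) ∈ B} (N/β)^(1/k) ≤ N^(1/2+c)`, and on any `N^(1/2)` further integers of `[N/2, N]`.
-/

namespace Pool.Agent.Results.MP_71ac24_nt.SparseMultiples

open Finset

/-- `D(t) = ∑_{n ≤ N} a_n n^{it}` -/
noncomputable def D (N : ℕ) (a : ℕ → ℂ) (t : ℝ) : ℂ :=
  ∑ n ∈ Icc 1 N, a n * Complex.exp (Complex.I * (t : ℂ) * (Real.log (n : ℝ) : ℂ))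

/-- `n` is of the form `β d^k` with `(β, k) ∈ B` and an integer `d`, or an element of `E` -/
def Supp (B : Finset (ℕ × ℕ)) (E : Finset ℕ) (n : ℕ) : Prop :=
  n ∈ E ∨ ∃ p ∈ B, ∃ d : ℕ, n = p.1 * d ^ p.2

/-- the pairs `(β, k) ∈ B` satisfy `1 ≤ β ≤ N^(1-μ)`, `1 ≤ k ≤ K` and `∑ (N/β)^(1/k) ≤ N^(1/2+c)`, and `E` has
at most `N^(1/2)` elements -/
def Thin (N : ℕ) (μ c : ℝ) (K : ℕ) (B : Finset (ℕ × ℕ)) (E : Finset ℕ) : Prop :=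
  (∀ p ∈ B, 1 ≤ p.1 ∧ (p.1 : ℝ) ≤ (N : ℝ) ^ (1 - μ) ∧ 1 ≤ p.2 ∧ p.2 ≤ K) ∧
    ∑ p ∈ B, ((N : ℝ) / p.1) ^ ((1 : ℝ) / p.2) ≤ (N : ℝ) ^ (1 / 2 + c) ∧
    (E.card : ℝ) ≤ (N : ℝ) ^ (1 / 2 : ℝ)

open Pool.Agent.R516.MS in
/-- Let `A ≥ 1` (for Q1: `A = 2`), `K ≥ 1`, `0 < μ ≤ 1`. There are `c > 0` and `C` such that for all `T ≤ N^A`, all
`B`, `E` satisfying `Thin`, all complex `a_1, …, a_N` vanishing outside the integers of `[N/2, N]` of the form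
`β d^k`, `(β, k) ∈ B`, or in `E`, and all `1`-separated `S ⊂ [0,T]`: `∑_{t ∈ S} |D(t)|² ≤ C (N + |S|) N` if
`|a_n| ≤ 1` for all `n`; and `∑_{t ∈ S} |D(t)|² ≤ C (N^(3/2-c) + |S| N^(1/2-c)) ∑ |a_n|²` if `E` is empty. -/
theorem result (A μ : ℝ) (K : ℕ) (hA : 1 ≤ A) (hμ : 0 < μ) (hμ1 : μ ≤ 1) (hK : 1 ≤ K) :
    ∃ c C : ℝ, 0 < c ∧ ∀ (N : ℕ) (B : Finset (ℕ × ℕ)) (E : Finset ℕ) (T : ℝ) (a : ℕ → ℂ), 1 ≤ N →
      Thin N μ c K B E → T ≤ (N : ℝ) ^ A →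
      (∀ n ∈ Icc 1 N, a n ≠ 0 → N ≤ 2 * n ∧ Supp B E n) →
      ∀ S : Finset ℝ, (∀ t ∈ S, 0 ≤ t ∧ t ≤ T) → (∀ t ∈ S, ∀ u ∈ S, t ≠ u → 1 ≤ |t - u|) →
        ((∀ n, ‖a n‖ ≤ 1) → ∑ t ∈ S, ‖D N a t‖ ^ 2 ≤ C * ((N : ℝ) + S.card) * N) ∧
        (E = ∅ → ∑ t ∈ S, ‖D N a t‖ ^ 2 ≤
          C * ((N : ℝ) ^ (3 / 2 - c) + S.card * (N : ℝ) ^ (1 / 2 - c)) * ∑ n ∈ Icc 1 N, ‖a n‖ ^ 2) := by
  obtain ⟨c, C, hc0, hC0, h⟩ := onOne A μ K hA hμ hμ1 hK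
  refine ⟨c, C, hc0, ?_⟩
  intro N B E T a hN hBE hT hs S hS hsep
  obtain ⟨h1, h2, h3⟩ := hBE
  exact h N B E hN h1 h2 h3 T 0 S a hT hsep (fun t ht => ⟨(hS t ht).1, by linarith [(hS t ht).2]⟩) hs

end Pool.Agent.Results.MP_71ac24_nt.SparseMultiples
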